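import Pool.Agent.Lib.MP_c6d336_gt.Final

/-!
# The uniform conjugate-product length of the group of homeomorphisms of the 2-sphere is three

The definitions `G`, `P`, `S2` are in `Pool.Agent.Lib.MP_c6d336_gt.Defs`.
-/

namespace Pool.Agent.Results.MP_c6d336_gt.ConjugateLengthThree

open Pool.Agent.Lib.MP_c6d336_gt

/-- **The uniform conjugate-product length `N` of the 2-sphere is exactly three**: `3` is the
least `n ≥ 1` such that for all non-identity `A, B` in the identity component `G S2` of `Homeo(S²)`
the map `B` is a product of exactly `n` conjugates of `A` in `Homeo(S²)`. -/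
theorem result : IsLeast {n : ℕ | 1 ≤ n ∧ P S2 n} 3 := by
  refine ⟨⟨by norm_num, P_three⟩, ?_⟩
  rintro n ⟨hn, hP⟩
  by_contra hlt
  push Not at hlt
  interval_cases n
  · exact not_P_one hP
  · exact not_P_two hP

end Pool.Agent.Results.MP_c6d336_gt.ConjugateLengthThree
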